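import Pool.Agent.H84_null.Perc

set_option autoImplicit false
open scoped BigOperators RealInnerProductSpace

namespace Pool.Agent.H84_null

variable {H H' : Type*} [NormedAddCommGroup H] [InnerProductSpace ℝ H]
  [NormedAddCommGroup H'] [InnerProductSpace ℝ H']

/-- `FF P u = ‖P u‖² / (1 + ‖u‖²)`. -/
noncomputable def FF (P : H →ₗ[ℝ] H') (u : H) : ℝ := ‖P u‖ ^ 2 / (1 + ‖u‖ ^ 2)

theorem FF_nonneg (P : H →ₗ[ℝ] H') (u : H) : 0 ≤ FF P u := by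
  unfold FF; positivity

theorem FF_le_one (P : H →ₗ[ℝ] H') (hP : ∀ u, ‖P u‖ ≤ ‖u‖) (u : H) : FF P u ≤ 1 := by
  unfold FF
  rw [div_le_one (by positivity)]
  have h1 := hP u
  have h2 := norm_nonneg (P u)
  nlinarith

theorem sq_diff_le {E : Type*} [NormedAddCommGroup E] (b h : E) :
    |‖b + h‖ ^ 2 - ‖b‖ ^ 2| ≤ ‖h‖ * (2 * ‖b‖ + ‖h‖) := by
  have e : ‖b + h‖ ^ 2 - ‖b‖ ^ 2 = (‖b + h‖ - ‖b‖) * (‖b + h‖ + ‖b‖) := by ring
  rw [e, abs_mul]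
  have h1 : |‖b + h‖ - ‖b‖| ≤ ‖h‖ := by
    have := abs_norm_sub_norm_le (b + h) b
    simpa using this
  have h2 : |‖b + h‖ + ‖b‖| ≤ 2 * ‖b‖ + ‖h‖ := by
    rw [abs_of_nonneg (by positivity)]
    have := norm_add_le b h
    linarith
  exact mul_le_mul h1 h2 (abs_nonneg _) (norm_nonneg _)

theorem FF_diff (P : H →ₗ[ℝ] H') (hP : ∀ u, ‖P u‖ ≤ ‖u‖) (b h : H) :
    |FF P (b + h) - FF P b| ≤ 2 * ‖h‖ * (2 * ‖b‖ + ‖h‖) / (1 + ‖b‖ ^ 2) := by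
  have hD : (0 : ℝ) < 1 + ‖b‖ ^ 2 := by positivity
  have hDa : (0 : ℝ) < 1 + ‖b + h‖ ^ 2 := by positivity
  have e : FF P (b + h) - FF P b
      = ((‖P (b + h)‖ ^ 2 - ‖P b‖ ^ 2) - FF P (b + h) * (‖b + h‖ ^ 2 - ‖b‖ ^ 2)) / (1 + ‖b‖ ^ 2) := by
    unfold FF
    field_simp
    ring
  rw [e, abs_div, abs_of_pos hD]
  apply div_le_div_of_nonneg_right _ hD.le
  have h1 : |‖P (b + h)‖ ^ 2 - ‖P b‖ ^ 2| ≤ ‖h‖ * (2 * ‖b‖ + ‖h‖) := by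
    rw [map_add]
    refine (sq_diff_le (P b) (P h)).trans ?_
    have := hP b
    have := hP h
    have := norm_nonneg (P h)
    have := norm_nonneg (P b)
    apply mul_le_mul <;> first | linarith | positivity
  have h2 : |FF P (b + h) * (‖b + h‖ ^ 2 - ‖b‖ ^ 2)| ≤ ‖h‖ * (2 * ‖b‖ + ‖h‖) := by
    rw [abs_mul, abs_of_nonneg (FF_nonneg P _)]
    calc FF P (b + h) * |‖b + h‖ ^ 2 - ‖b‖ ^ 2| ≤ 1 * |‖b + h‖ ^ 2 - ‖b‖ ^ 2| :=
          mul_le_mul_of_nonneg_right (FF_le_one P hP _) (abs_nonneg _)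
      _ ≤ _ := by rw [one_mul]; exact sq_diff_le b h
  calc |(‖P (b + h)‖ ^ 2 - ‖P b‖ ^ 2) - FF P (b + h) * (‖b + h‖ ^ 2 - ‖b‖ ^ 2)|
      ≤ |‖P (b + h)‖ ^ 2 - ‖P b‖ ^ 2| + |FF P (b + h) * (‖b + h‖ ^ 2 - ‖b‖ ^ 2)| := abs_sub _ _
    _ ≤ ‖h‖ * (2 * ‖b‖ + ‖h‖) + ‖h‖ * (2 * ‖b‖ + ‖h‖) := add_le_add h1 h2
    _ = _ := by ring

/-- far points: `F (v - w)` is close to `F (-w)`. -/
theorem FF_far (P : H →ₗ[ℝ] H') (hP : ∀ u, ‖P u‖ ≤ ‖u‖) (v w : H) (R K : ℝ) (hK : 1 ≤ K)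
    (hR : 0 < R) (hv : ‖v‖ ≤ R) (hw : K * R ≤ ‖w‖) :
    |FF P (v - w) - FF P (-w)| ≤ 6 / K := by
  have h := FF_diff P hP (-w) v
  have e : -w + v = v - w := by abel
  rw [e, norm_neg] at h
  refine h.trans ?_
  have hwR : R ≤ ‖w‖ := by nlinarith
  have hw0 : 0 < ‖w‖ := lt_of_lt_of_le hR hwR
  have hK0 : 0 < K := by linarith
  rw [div_le_div_iff₀ (by positivity) hK0]
  have h1 : 2 * ‖v‖ * (2 * ‖w‖ + ‖v‖) ≤ 2 * R * (3 * ‖w‖) := by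
    apply mul_le_mul <;> first | linarith | positivity
  calc 2 * ‖v‖ * (2 * ‖w‖ + ‖v‖) * K ≤ 2 * R * (3 * ‖w‖) * K :=
        mul_le_mul_of_nonneg_right h1 hK0.le
    _ = 6 * (K * R) * ‖w‖ := by ring
    _ ≤ 6 * ‖w‖ * ‖w‖ := by
        apply mul_le_mul_of_nonneg_right _ hw0.le
        linarith
    _ ≤ 6 * (1 + ‖w‖ ^ 2) := by nlinarith

/-- small displacements: `F (v - w)` is close to `F v`. -/
theorem FF_small (P : H →ₗ[ℝ] H') (hP : ∀ u, ‖P u‖ ≤ ‖u‖) (v w : H) (R K : ℝ) (hK : 1 ≤ K)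
    (hR : 0 < R) (hv : R ^ 2 = 1 + ‖v‖ ^ 2) (hw : K * ‖w‖ ≤ R) :
    |FF P (v - w) - FF P v| ≤ 6 / K := by
  have h := FF_diff P hP v (-w)
  have e : v + -w = v - w := by abel
  rw [e, norm_neg] at h
  refine h.trans ?_
  have hvR : ‖v‖ ≤ R := by nlinarith [norm_nonneg v]
  have hK0 : 0 < K := by linarith
  have hwR : ‖w‖ ≤ R := by nlinarith [norm_nonneg w]
  rw [← hv, div_le_div_iff₀ (by positivity) hK0]
  have h1 : 2 * ‖w‖ * (2 * ‖v‖ + ‖w‖) ≤ 2 * ‖w‖ * (3 * R) := by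
    apply mul_le_mul <;> first | linarith | positivity
  calc 2 * ‖w‖ * (2 * ‖v‖ + ‖w‖) * K ≤ 2 * ‖w‖ * (3 * R) * K :=
        mul_le_mul_of_nonneg_right h1 hK0.le
    _ = 6 * (K * ‖w‖) * R := by ring
    _ ≤ 6 * R * R := by
        apply mul_le_mul_of_nonneg_right _ hR.le
        linarith
    _ = 6 * R ^ 2 := by ring

/-- comparison of quotients -/
theorem quot_close (n n' d d' e q : ℝ) (hn : 0 ≤ n) (hd : 0 < d) (hd' : 0 < d') (hnd : n ≤ d)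
    (he : |n - n'| ≤ e) (he' : |d - d'| ≤ e) (hq : 2 * e ≤ q * d') :
    |n / d - n' / d'| ≤ q := by
  have e1 : n / d - n' / d' = ((n - n') - (n / d) * (d - d')) / d' := by
    field_simp
    ring
  rw [e1, abs_div, abs_of_pos hd', div_le_iff₀ hd']
  have h1 : |n / d * (d - d')| ≤ e := by
    rw [abs_mul, abs_of_nonneg (by positivity)]
    calc n / d * |d - d'| ≤ 1 * |d - d'| :=
          mul_le_mul_of_nonneg_right ((div_le_one hd).mpr hnd) (abs_nonneg _)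
      _ ≤ e := by rw [one_mul]; exact he'
  calc |(n - n') - n / d * (d - d')| ≤ |n - n'| + |n / d * (d - d')| := abs_sub _ _
    _ ≤ e + e := add_le_add he h1
    _ ≤ _ := by linarith

end Pool.Agent.H84_null
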