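import Pool.Agent.H84_null.Code

set_option autoImplicit false
open scoped BigOperators RealInnerProductSpace

namespace Pool.Agent.H84_null

variable {H H' : Type*} [NormedAddCommGroup H] [InnerProductSpace ℝ H]
  [NormedAddCommGroup H'] [InnerProductSpace ℝ H']

/-- truncated displacements -/
noncomputable def trw {ι : Type*} (y : ι → H) (i0 : ι) (b : ℝ) (i : ι) : H :=
  if ‖y i - y i0‖ < b then y i - y i0 else 0

omit [InnerProductSpace ℝ H] in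
theorem trw_norm {ι : Type*} (y : ι → H) (i0 : ι) (b : ℝ) (hb : 0 ≤ b) (i : ι) :
    ‖trw y i0 b i‖ ≤ b := by
  unfold trw
  split_ifs with h
  · exact h.le
  · simpa using hb

/-- the case without intermediate index -/
def CaseA {ι : Type*} (P : H →ₗ[ℝ] H') (y : ι → H) (K η : ℝ) (z : H) (i0 i1 : ι) (n1 : ℕ) : Prop :=
  (∀ i, K * ‖y i - y i0‖ ≤ √(1 + ‖z - y i0‖ ^ 2) ∨ K * √(1 + ‖z - y i0‖ ^ 2) ≤ ‖y i - y i0‖) ∧
  K * ‖y i1 - y i0‖ ≤ √(1 + ‖z - y i0‖ ^ 2) ∧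
  (∀ i, K * ‖y i - y i0‖ ≤ √(1 + ‖z - y i0‖ ^ 2) → ‖y i - y i0‖ ≤ ‖y i1 - y i0‖) ∧
  |FF P (z - y i0) - n1 * η| ≤ η

/-- the case with an intermediate index -/
def CaseB {ι : Type*} (P : H →ₗ[ℝ] H') (y : ι → H) (K η : ℝ) (z : H) (i0 i1 : ι) (n1 n2 T : ℕ)
    (s1 s2 : Fin T → Option (ι × Bool)) : Prop :=
  √(1 + ‖z - y i0‖ ^ 2) < K * ‖y i1 - y i0‖ ∧
  ‖y i1 - y i0‖ < K * √(1 + ‖z - y i0‖ ^ 2) ∧
  |‖P (z - y i0)‖ ^ 2 - n1 * (η * ‖y i1 - y i0‖ ^ 2)| ≤ η * ‖y i1 - y i0‖ ^ 2 ∧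
  |‖z - y i0‖ ^ 2 - n2 * (η * ‖y i1 - y i0‖ ^ 2)| ≤ η * ‖y i1 - y i0‖ ^ 2 ∧
  (∀ i, |⟪P (z - y i0) - recv ((η * ‖y i1 - y i0‖ ^ 2) / (K ^ 2 * ‖y i1 - y i0‖) ^ 2)
      (fun j => P (trw y i0 (K ^ 2 * ‖y i1 - y i0‖) j)) s1,
      P (trw y i0 (K ^ 2 * ‖y i1 - y i0‖) i)⟫| ≤ η * ‖y i1 - y i0‖ ^ 2) ∧
  (∀ i, |⟪(z - y i0) - recv ((η * ‖y i1 - y i0‖ ^ 2) / (K ^ 2 * ‖y i1 - y i0‖) ^ 2)
      (trw y i0 (K ^ 2 * ‖y i1 - y i0‖)) s2,
      trw y i0 (K ^ 2 * ‖y i1 - y i0‖) i⟫| ≤ η * ‖y i1 - y i0‖ ^ 2)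

theorem caseA_close {ι : Type*} (P : H →ₗ[ℝ] H') (hP : ∀ u, ‖P u‖ ≤ ‖u‖) (y : ι → H) (K η : ℝ)
    (hK : 1 ≤ K) (z z' : H) (i0 i1 : ι) (n1 : ℕ)
    (h : CaseA P y K η z i0 i1 n1) (h' : CaseA P y K η z' i0 i1 n1) (i : ι) :
    |FF P (z - y i) - FF P (z' - y i)| ≤ 12 / K + 2 * η := by
  obtain ⟨hA, hB, hC, hD⟩ := h
  obtain ⟨hA', hB', hC', hD'⟩ := h'
  set R := √(1 + ‖z - y i0‖ ^ 2) with hR
  set R' := √(1 + ‖z' - y i0‖ ^ 2) with hR'
  have hR0 : 0 < R := Real.sqrt_pos.mpr (by positivity)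
  have hR0' : 0 < R' := Real.sqrt_pos.mpr (by positivity)
  have hRsq : R ^ 2 = 1 + ‖z - y i0‖ ^ 2 := Real.sq_sqrt (by positivity)
  have hRsq' : R' ^ 2 = 1 + ‖z' - y i0‖ ^ 2 := Real.sq_sqrt (by positivity)
  have hη : 0 ≤ η := le_trans (abs_nonneg _) hD
  have hK0 : 0 < K := by linarith
  have e : z - y i = (z - y i0) - (y i - y i0) := by abel
  have e' : z' - y i = (z' - y i0) - (y i - y i0) := by abel
  have hmono : ∀ j, ‖y j - y i0‖ ≤ ‖y i1 - y i0‖ → K * ‖y j - y i0‖ ≤ R ∧ K * ‖y j - y i0‖ ≤ R' := by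
    intro j hj
    exact ⟨(mul_le_mul_of_nonneg_left hj hK0.le).trans hB, (mul_le_mul_of_nonneg_left hj hK0.le).trans hB'⟩
  by_cases hs : ‖y i - y i0‖ ≤ ‖y i1 - y i0‖
  · obtain ⟨h1, h2⟩ := hmono i hs
    have a1 := FF_small P hP (z - y i0) (y i - y i0) R K hK hR0 hRsq h1
    have a2 := FF_small P hP (z' - y i0) (y i - y i0) R' K hK hR0' hRsq' h2
    rw [← e] at a1
    rw [← e'] at a2
    have : (12 : ℝ) / K = 6 / K + 6 / K := by ring
    rw [this]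
    rw [abs_le] at a1 a2 hD hD' ⊢
    constructor <;> linarith [a1.1, a1.2, a2.1, a2.2, hD.1, hD.2, hD'.1, hD'.2]
  · have f1 : K * R ≤ ‖y i - y i0‖ := by
      rcases hA i with h1 | h1
      · exact absurd (hC i h1) hs
      · exact h1
    have f2 : K * R' ≤ ‖y i - y i0‖ := by
      rcases hA' i with h1 | h1
      · exact absurd (hC' i h1) hs
      · exact h1
    have v1 : ‖z - y i0‖ ≤ R := by nlinarith [norm_nonneg (z - y i0)]
    have v2 : ‖z' - y i0‖ ≤ R' := by nlinarith [norm_nonneg (z' - y i0)]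
    have a1 := FF_far P hP (z - y i0) (y i - y i0) R K hK hR0 v1 f1
    have a2 := FF_far P hP (z' - y i0) (y i - y i0) R' K hK hR0' v2 f2
    rw [← e] at a1
    rw [← e'] at a2
    have : (12 : ℝ) / K = 6 / K + 6 / K := by ring
    rw [this]
    rw [abs_le] at a1 a2 ⊢
    constructor <;> linarith [a1.1, a1.2, a2.1, a2.2]

theorem caseB_close {ι : Type*} (P : H →ₗ[ℝ] H') (hP : ∀ u, ‖P u‖ ≤ ‖u‖) (y : ι → H) (K η : ℝ)
    (hK : 1 ≤ K) (z z' : H) (i0 i1 : ι) (n1 n2 T : ℕ)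
    (s1 s2 : Fin T → Option (ι × Bool))
    (hz' : ∀ i, ‖z' - y i0‖ ≤ ‖z' - y i‖)
    (h : CaseB P y K η z i0 i1 n1 n2 T s1 s2) (h' : CaseB P y K η z' i0 i1 n1 n2 T s1 s2) (i : ι) :
    |FF P (z - y i) - FF P (z' - y i)| ≤ 12 / K + 12 * η * K ^ 2 := by
  obtain ⟨hA, hB, hC, hD, hE, hF⟩ := h
  obtain ⟨hA', hB', hC', hD', hE', hF'⟩ := h'
  set R := √(1 + ‖z - y i0‖ ^ 2) with hR
  set R' := √(1 + ‖z' - y i0‖ ^ 2) with hR'
  set ρ := ‖y i1 - y i0‖ with hρ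
  have hR0 : 0 < R := Real.sqrt_pos.mpr (by positivity)
  have hR0' : 0 < R' := Real.sqrt_pos.mpr (by positivity)
  have hRsq : R ^ 2 = 1 + ‖z - y i0‖ ^ 2 := Real.sq_sqrt (by positivity)
  have hRsq' : R' ^ 2 = 1 + ‖z' - y i0‖ ^ 2 := Real.sq_sqrt (by positivity)
  have hK0 : 0 < K := by linarith
  have hρ0 : 0 < ρ := by
    by_contra hcon
    push Not at hcon
    have : K * ρ ≤ 0 := mul_nonpos_of_nonneg_of_nonpos hK0.le hcon
    linarith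
  have hη : 0 ≤ η := by
    by_contra hcon
    push Not at hcon
    have h1 : η * ρ ^ 2 < 0 := mul_neg_of_neg_of_pos hcon (by positivity)
    have := (abs_nonneg _).trans hC
    linarith
  have e : z - y i = (z - y i0) - (y i - y i0) := by abel
  have e' : z' - y i = (z' - y i0) - (y i - y i0) := by abel
  by_cases hs : ‖y i - y i0‖ < K ^ 2 * ρ
  · have ht : trw y i0 (K ^ 2 * ρ) i = y i - y i0 := by
      unfold trw
      rw [if_pos hs]
    have q1 := hE i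
    have q1' := hE' i
    have q2 := hF i
    have q2' := hF' i
    rw [ht] at q1 q1' q2 q2'
    rw [inner_sub_left] at q1 q1' q2 q2'
    set g1 : ℝ := ⟪recv ((η * ρ ^ 2) / (K ^ 2 * ρ) ^ 2)
      (fun j => P (trw y i0 (K ^ 2 * ρ) j)) s1, P (y i - y i0)⟫ with hg1
    set g2 : ℝ := ⟪recv ((η * ρ ^ 2) / (K ^ 2 * ρ) ^ 2)
      (trw y i0 (K ^ 2 * ρ)) s2, y i - y i0⟫ with hg2
    have b1 : |‖P (z - y i)‖ ^ 2 - ‖P (z' - y i)‖ ^ 2| ≤ 6 * (η * ρ ^ 2) := by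
      rw [e, e', map_sub P (z - y i0) (y i - y i0), map_sub P (z' - y i0) (y i - y i0),
        @norm_sub_sq_real, @norm_sub_sq_real]
      rw [abs_le] at q1 q1' hC hC' ⊢
      constructor <;> linarith [q1.1, q1.2, q1'.1, q1'.2, hC.1, hC.2, hC'.1, hC'.2]
    have b2 : |(1 + ‖z - y i‖ ^ 2) - (1 + ‖z' - y i‖ ^ 2)| ≤ 6 * (η * ρ ^ 2) := by
      rw [e, e', norm_sub_sq_real (z - y i0) (y i - y i0), norm_sub_sq_real (z' - y i0) (y i - y i0)]
      rw [abs_le] at q2 q2' hD hD' ⊢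
      constructor <;> linarith [q2.1, q2.2, q2'.1, q2'.2, hD.1, hD.2, hD'.1, hD'.2]
    have b3 : 2 * (6 * (η * ρ ^ 2)) ≤ (12 * η * K ^ 2) * (1 + ‖z' - y i‖ ^ 2) := by
      have c1 : R' ^ 2 ≤ 1 + ‖z' - y i‖ ^ 2 := by
        rw [hRsq']
        have := hz' i
        have := norm_nonneg (z' - y i0)
        nlinarith
      have c2 : ρ ^ 2 ≤ K ^ 2 * R' ^ 2 := by
        have : ρ ≤ K * R' := hB'.le
        calc ρ ^ 2 ≤ (K * R') ^ 2 := by
              apply pow_le_pow_left₀ hρ0.le this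
          _ = K ^ 2 * R' ^ 2 := by ring
      have c3 : ρ ^ 2 ≤ K ^ 2 * (1 + ‖z' - y i‖ ^ 2) :=
        c2.trans (mul_le_mul_of_nonneg_left c1 (by positivity))
      calc 2 * (6 * (η * ρ ^ 2)) = 12 * η * ρ ^ 2 := by ring
        _ ≤ 12 * η * (K ^ 2 * (1 + ‖z' - y i‖ ^ 2)) :=
            mul_le_mul_of_nonneg_left c3 (by positivity)
        _ = _ := by ring
    have b4 : ‖P (z - y i)‖ ^ 2 ≤ 1 + ‖z - y i‖ ^ 2 := by
      have := hP (z - y i)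
      have := norm_nonneg (P (z - y i))
      nlinarith
    have := quot_close (‖P (z - y i)‖ ^ 2) (‖P (z' - y i)‖ ^ 2) (1 + ‖z - y i‖ ^ 2)
      (1 + ‖z' - y i‖ ^ 2) (6 * (η * ρ ^ 2)) (12 * η * K ^ 2) (by positivity) (by positivity)
      (by positivity) b4 b1 b2 b3
    have h12 : (0 : ℝ) ≤ 12 / K := by positivity
    unfold FF
    linarith
  · push Not at hs
    have f1 : K * R ≤ ‖y i - y i0‖ := by
      refine le_trans ?_ hs
      have : K * R ≤ K * (K * ρ) := mul_le_mul_of_nonneg_left hA.le hK0.le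
      linarith [this, (by ring : K * (K * ρ) = K ^ 2 * ρ)]
    have f2 : K * R' ≤ ‖y i - y i0‖ := by
      refine le_trans ?_ hs
      have : K * R' ≤ K * (K * ρ) := mul_le_mul_of_nonneg_left hA'.le hK0.le
      linarith [this, (by ring : K * (K * ρ) = K ^ 2 * ρ)]
    have v1 : ‖z - y i0‖ ≤ R := by nlinarith [norm_nonneg (z - y i0)]
    have v2 : ‖z' - y i0‖ ≤ R' := by nlinarith [norm_nonneg (z' - y i0)]
    have a1 := FF_far P hP (z - y i0) (y i - y i0) R K hK hR0 v1 f1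
    have a2 := FF_far P hP (z' - y i0) (y i - y i0) R' K hK hR0' v2 f2
    rw [← e] at a1
    rw [← e'] at a2
    have e12 : (12 : ℝ) / K = 6 / K + 6 / K := by ring
    have : (0 : ℝ) ≤ 12 * η * K ^ 2 := by positivity
    rw [e12]
    rw [abs_le] at a1 a2 ⊢
    constructor <;> linarith [a1.1, a1.2, a2.1, a2.2]

/-- rounding to a multiple -/
theorem round_exists (x q : ℝ) (A : ℕ) (hq : 0 < q) (hx : 0 ≤ x) (hA : x ≤ A * q) :
    ∃ n : Fin (A + 1), |x - (n : ℕ) * q| ≤ q := by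
  have h0 : 0 ≤ x / q := by positivity
  have h1 : ⌊x / q⌋₊ ≤ A := by
    have : x / q ≤ A := by rw [div_le_iff₀ hq]; exact hA
    calc ⌊x / q⌋₊ ≤ ⌊(A : ℝ)⌋₊ := Nat.floor_mono this
      _ = A := Nat.floor_natCast A
  refine ⟨⟨⌊x / q⌋₊, by omega⟩, ?_⟩
  have h2 : (⌊x / q⌋₊ : ℝ) ≤ x / q := Nat.floor_le h0
  have h3 : x / q < ⌊x / q⌋₊ + 1 := Nat.lt_floor_add_one _
  rw [le_div_iff₀ hq] at h2
  rw [div_lt_iff₀ hq] at h3
  rw [abs_le]
  simp only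
  constructor <;> linarith

theorem code_exists {ι : Type*} [Finite ι] [Nonempty ι] (P : H →ₗ[ℝ] H') (hP : ∀ u, ‖P u‖ ≤ ‖u‖)
    (y : ι → H) (K η : ℝ) (hK : 1 < K) (hη : 0 < η) (A T : ℕ) (hA1 : 1 ≤ A * η)
    (hA : K ^ 2 ≤ A * η) (hT : K ^ 6 ≤ T * η ^ 2) (z : H) :
    ∃ (c : Bool × ι × ι × Fin (A + 1) × Fin (A + 1) × (Fin T → Option (ι × Bool)) ×
        (Fin T → Option (ι × Bool))),
      (∀ i, ‖z - y c.2.1‖ ≤ ‖z - y i‖) ∧
      (c.1 = false → CaseA P y K η z c.2.1 c.2.2.1 c.2.2.2.1) ∧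
      (c.1 = true → CaseB P y K η z c.2.1 c.2.2.1 c.2.2.2.1 c.2.2.2.2.1 T c.2.2.2.2.2.1
        c.2.2.2.2.2.2) := by
  obtain ⟨i0, hi0⟩ := Finite.exists_min (fun i => ‖z - y i‖)
  have hK0 : 0 < K := by linarith
  set R := √(1 + ‖z - y i0‖ ^ 2) with hR
  have hR0 : 0 < R := Real.sqrt_pos.mpr (by positivity)
  have hRsq : R ^ 2 = 1 + ‖z - y i0‖ ^ 2 := Real.sq_sqrt (by positivity)
  by_cases hmid : ∃ i1, R < K * ‖y i1 - y i0‖ ∧ ‖y i1 - y i0‖ < K * R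
  · obtain ⟨i1, h1, h2⟩ := hmid
    set ρ := ‖y i1 - y i0‖ with hρ
    have hρ0 : 0 < ρ := by
      by_contra hcon
      push Not at hcon
      have : K * ρ ≤ 0 := mul_nonpos_of_nonneg_of_nonpos hK0.le hcon
      linarith
    have hq : 0 < η * ρ ^ 2 := by positivity
    have hRρ : R ^ 2 ≤ K ^ 2 * ρ ^ 2 := by
      calc R ^ 2 ≤ (K * ρ) ^ 2 := pow_le_pow_left₀ hR0.le h1.le 2
        _ = K ^ 2 * ρ ^ 2 := by ring
    have hv : ‖z - y i0‖ ^ 2 ≤ K ^ 2 * ρ ^ 2 := by linarith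
    have hPv : ‖P (z - y i0)‖ ^ 2 ≤ K ^ 2 * ρ ^ 2 := by
      have := hP (z - y i0)
      have := norm_nonneg (P (z - y i0))
      nlinarith
    have hAq : K ^ 2 * ρ ^ 2 ≤ A * (η * ρ ^ 2) := by
      calc K ^ 2 * ρ ^ 2 ≤ (A * η) * ρ ^ 2 := mul_le_mul_of_nonneg_right hA (by positivity)
        _ = _ := by ring
    obtain ⟨n1, hn1⟩ := round_exists (‖P (z - y i0)‖ ^ 2) (η * ρ ^ 2) A hq (by positivity)
      (hPv.trans hAq)
    obtain ⟨n2, hn2⟩ := round_exists (‖z - y i0‖ ^ 2) (η * ρ ^ 2) A hq (by positivity)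
      (hv.trans hAq)
    have hb : 0 < K ^ 2 * ρ := by positivity
    have hTT : K ^ 2 * ρ ^ 2 * (K ^ 2 * ρ) ^ 2 ≤ T * (η * ρ ^ 2) ^ 2 := by
      calc K ^ 2 * ρ ^ 2 * (K ^ 2 * ρ) ^ 2 = K ^ 6 * ρ ^ 4 := by ring
        _ ≤ (T * η ^ 2) * ρ ^ 4 := mul_le_mul_of_nonneg_right hT (by positivity)
        _ = _ := by ring
    obtain ⟨s1, hs1⟩ := perceptron (fun j => P (trw y i0 (K ^ 2 * ρ) j)) (K ^ 2 * ρ) (η * ρ ^ 2)
      hb hq (fun i => (hP _).trans (trw_norm y i0 _ hb.le i)) T (P (z - y i0))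
      (le_trans (mul_le_mul_of_nonneg_right hPv (by positivity)) hTT)
    obtain ⟨s2, hs2⟩ := perceptron (trw y i0 (K ^ 2 * ρ)) (K ^ 2 * ρ) (η * ρ ^ 2)
      hb hq (fun i => trw_norm y i0 _ hb.le i) T (z - y i0)
      (le_trans (mul_le_mul_of_nonneg_right hv (by positivity)) hTT)
    refine ⟨⟨true, i0, i1, n1, n2, s1, s2⟩, hi0, ?_, ?_⟩
    · intro h; exact absurd h (by simp)
    · intro _
      exact ⟨h1, h2, hn1, hn2, hs1, hs2⟩
  · push Not at hmid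
    -- the small indices
    have hfin : ({i | K * ‖y i - y i0‖ ≤ R} : Set ι).Finite := Set.toFinite _
    have hne : ({i | K * ‖y i - y i0‖ ≤ R} : Set ι).Nonempty := ⟨i0, by simp [hR0.le]⟩
    obtain ⟨i1, hi1, hmax⟩ := Set.exists_max_image _ (fun i => ‖y i - y i0‖) hfin hne
    obtain ⟨n1, hn1⟩ := round_exists (FF P (z - y i0)) η A hη (FF_nonneg P _)
      ((FF_le_one P hP _).trans hA1)
    refine ⟨⟨false, i0, i1, n1, n1, fun _ => none, fun _ => none⟩, hi0, ?_, ?_⟩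
    · intro _
      refine ⟨?_, hi1, ?_, hn1⟩
      · intro i
        by_cases h : K * ‖y i - y i0‖ ≤ R
        · exact Or.inl h
        · push Not at h
          exact Or.inr (hmid i h)
      · intro i hi
        exact hmax i hi
    · intro h; exact absurd h (by simp)

/-- **Coding lemma.** -/
theorem coding (P : H →ₗ[ℝ] H') (hP : ∀ u, ‖P u‖ ≤ ‖u‖) (ε : ℝ) (hε : 0 < ε) :
    ∃ C M : ℕ, ∀ (ι : Type) [Fintype ι] [Nonempty ι] (y : ι → H),
      ∃ (β : Type) (_ : Fintype β) (code : H → β),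
        Fintype.card β ≤ C * (Fintype.card ι + 1) ^ M ∧
        ∀ z z', code z = code z' → ∀ i, |FF P (z - y i) - FF P (z' - y i)| ≤ ε := by
  classical
  set K : ℝ := 24 / ε + 2 with hK
  have hK1 : 1 < K := by
    have : 0 < 24 / ε := by positivity
    rw [hK]; linarith
  have hK0 : 0 < K := by linarith
  set η : ℝ := ε / (24 * K ^ 2) with hη
  have hη0 : 0 < η := by positivity
  have hKε : 12 / K ≤ ε / 2 := by
    rw [div_le_div_iff₀ hK0 (by norm_num)]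
    have : ε * K = 24 + 2 * ε := by rw [hK]; field_simp
    rw [this]; linarith
  have hηε : 12 * η * K ^ 2 ≤ ε / 2 := by
    rw [hη]
    apply le_of_eq
    field_simp
    norm_num
  have hηε2 : 2 * η ≤ ε / 2 := by
    have h1 : (1 : ℝ) ≤ K ^ 2 := by nlinarith
    have h2 : 12 * η ≤ 12 * η * K ^ 2 := by
      have : 12 * η * 1 ≤ 12 * η * K ^ 2 := mul_le_mul_of_nonneg_left h1 (by positivity)
      linarith
    linarith
  obtain ⟨A, hA⟩ := exists_nat_ge (K ^ 2 / η)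
  obtain ⟨T, hT⟩ := exists_nat_ge (K ^ 6 / η ^ 2)
  have hA' : K ^ 2 ≤ A * η := by rwa [div_le_iff₀ hη0] at hA
  have hT' : K ^ 6 ≤ T * η ^ 2 := by rwa [div_le_iff₀ (by positivity)] at hT
  have hA1 : (1 : ℝ) ≤ A * η := le_trans (by nlinarith) hA'
  refine ⟨2 * (A + 1) ^ 2 * 4 ^ T, 2 + 2 * T, ?_⟩
  intro ι _ _ y
  choose code hc0 hcA hcB using code_exists P hP y K η hK1 hη0 A T hA1 hA' hT'
  refine ⟨_, inferInstance, code, ?_, ?_⟩
  · simp only [Fintype.card_prod, Fintype.card_bool, Fintype.card_fin, Fintype.card_fun,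
      Fintype.card_option]
    set k := Fintype.card ι
    have h1 : k ≤ k + 1 := by omega
    have h2 : k * 2 + 1 ≤ 2 * (k + 1) := by omega
    have h3 : (k * 2 + 1) ^ T ≤ (2 * (k + 1)) ^ T := Nat.pow_le_pow_left h2 T
    calc 2 * (k * (k * ((A + 1) * ((A + 1) * ((k * 2 + 1) ^ T * (k * 2 + 1) ^ T)))))
        ≤ 2 * ((k + 1) * ((k + 1) * ((A + 1) * ((A + 1) * ((2 * (k + 1)) ^ T * (2 * (k + 1)) ^ T))))) := by
          gcongr
      _ = 2 * (A + 1) ^ 2 * 4 ^ T * (k + 1) ^ (2 + 2 * T) := by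
          rw [mul_pow, pow_add, pow_mul (k + 1) 2 T, pow_two (k + 1), mul_pow (k + 1) (k + 1) T,
            show (4 : ℕ) = 2 * 2 by norm_num, mul_pow 2 2 T]
          ring
  · intro z z' hzz i
    have hz' := hc0 z'
    rcases hb : (code z).1 with _ | _
    · have hA1 := hcA z hb
      have hA2 := hcA z' (by rw [← hzz]; exact hb)
      rw [← hzz] at hA2
      have := caseA_close P hP y K η hK1.le z z' _ _ _ hA1 hA2 i
      linarith
    · have hB1 := hcB z hb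
      have hB2 := hcB z' (by rw [← hzz]; exact hb)
      rw [← hzz] at hB2 hz'
      have := caseB_close P hP y K η hK1.le z z' _ _ _ _ _ _ _ hz' hB1 hB2 i
      linarith

end Pool.Agent.H84_null
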