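import Mathlib

/-!
The perceptron lemma and the coding lemma used for the null, not mean equicontinuous, transitive system.
-/

set_option autoImplicit false
open scoped BigOperators RealInnerProductSpace

namespace Pool.Agent.H84_null

variable {H : Type*} [NormedAddCommGroup H] [InnerProductSpace ℝ H]

/-- One step of a transcript. -/
noncomputable def stp {ι : Type*} (c : ℝ) (w : ι → H) : Option (ι × Bool) → H
  | none => 0
  | some (i, true) => c • w i
  | some (i, false) => -(c • w i)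

/-- The vector reconstructed from a transcript. -/
noncomputable def recv {ι : Type*} (c : ℝ) (w : ι → H) {T : ℕ} (s : Fin T → Option (ι × Bool)) : H :=
  ∑ t, stp c w (s t)

theorem perceptron {ι : Type*} (w : ι → H) (b τ : ℝ) (hb : 0 < b) (hτ : 0 < τ)
    (hw : ∀ i, ‖w i‖ ≤ b) (T : ℕ) :
    ∀ v : H, ‖v‖ ^ 2 * b ^ 2 ≤ T * τ ^ 2 →
      ∃ s : Fin T → Option (ι × Bool), ∀ i, |⟪v - recv (τ / b ^ 2) w s, w i⟫| ≤ τ := by
  induction T with
  | zero =>
    intro v hv
    have h0 : ‖v‖ ^ 2 * b ^ 2 ≤ 0 := by simpa using hv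
    have h1 : ‖v‖ ^ 2 ≤ 0 := by
      by_contra h
      push Not at h
      have := mul_pos h (pow_pos hb 2)
      linarith
    have h2 : ‖v‖ = 0 := by nlinarith [norm_nonneg v]
    have h3 : v = 0 := norm_eq_zero.mp h2
    refine ⟨fun t => t.elim0, fun i => ?_⟩
    simp [recv, h3, hτ.le]
  | succ T ih =>
    intro v hv
    by_cases hall : ∀ i, |⟪v, w i⟫| ≤ τ
    · refine ⟨fun _ => none, fun i => ?_⟩
      have : recv (τ / b ^ 2) w (fun _ : Fin (T + 1) => (none : Option (ι × Bool))) = 0 := by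
        simp [recv, stp]
      rw [this, sub_zero]
      exact hall i
    · push Not at hall
      obtain ⟨i, hi⟩ := hall
      have hb2 : (0 : ℝ) < b ^ 2 := pow_pos hb 2
      set c : ℝ := τ / b ^ 2 with hc
      have hcpos : 0 < c := div_pos hτ hb2
      have hcb : c * b ^ 2 = τ := by rw [hc]; field_simp
      have hwi : ‖w i‖ ^ 2 ≤ b ^ 2 := by
        have := hw i
        have h0 := norm_nonneg (w i)
        nlinarith
      -- choose the sign
      obtain ⟨o, ho⟩ : ∃ o : Option (ι × Bool), ‖v - stp c w o‖ ^ 2 ≤ ‖v‖ ^ 2 - c * τ := by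
        rcases le_total 0 ⟪v, w i⟫ with hpos | hneg
        · refine ⟨some (i, true), ?_⟩
          rw [abs_of_nonneg hpos] at hi
          have e : ‖v - stp c w (some (i, true))‖ ^ 2
              = ‖v‖ ^ 2 - 2 * (c * ⟪v, w i⟫) + c ^ 2 * ‖w i‖ ^ 2 := by
            simp only [stp]
            rw [@norm_sub_sq_real, inner_smul_right, norm_smul, mul_pow, Real.norm_eq_abs, sq_abs]
          rw [e]
          have h1 : c * τ ≤ c * ⟪v, w i⟫ := mul_le_mul_of_nonneg_left hi.le hcpos.le
          have h2 : c ^ 2 * ‖w i‖ ^ 2 ≤ c * τ := by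
            calc c ^ 2 * ‖w i‖ ^ 2 ≤ c ^ 2 * b ^ 2 := mul_le_mul_of_nonneg_left hwi (sq_nonneg c)
              _ = c * (c * b ^ 2) := by ring
              _ = c * τ := by rw [hcb]
          linarith
        · refine ⟨some (i, false), ?_⟩
          rw [abs_of_nonpos hneg] at hi
          have e : ‖v - stp c w (some (i, false))‖ ^ 2
              = ‖v‖ ^ 2 + 2 * (c * ⟪v, w i⟫) + c ^ 2 * ‖w i‖ ^ 2 := by
            simp only [stp]
            rw [sub_neg_eq_add, @norm_add_sq_real, inner_smul_right, norm_smul, mul_pow,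
              Real.norm_eq_abs, sq_abs]
          rw [e]
          have h1 : c * τ ≤ c * (-⟪v, w i⟫) := mul_le_mul_of_nonneg_left hi.le hcpos.le
          have h2 : c ^ 2 * ‖w i‖ ^ 2 ≤ c * τ := by
            calc c ^ 2 * ‖w i‖ ^ 2 ≤ c ^ 2 * b ^ 2 := mul_le_mul_of_nonneg_left hwi (sq_nonneg c)
              _ = c * (c * b ^ 2) := by ring
              _ = c * τ := by rw [hcb]
          linarith
      have hv' : ‖v - stp c w o‖ ^ 2 * b ^ 2 ≤ T * τ ^ 2 := by
        have h1 : ‖v - stp c w o‖ ^ 2 * b ^ 2 ≤ (‖v‖ ^ 2 - c * τ) * b ^ 2 :=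
          mul_le_mul_of_nonneg_right ho hb2.le
        have h2 : (‖v‖ ^ 2 - c * τ) * b ^ 2 = ‖v‖ ^ 2 * b ^ 2 - (c * b ^ 2) * τ := by ring
        rw [hcb] at h2
        push_cast at hv
        nlinarith
      obtain ⟨s, hs⟩ := ih (v - stp c w o) hv'
      refine ⟨Fin.cons o s, fun j => ?_⟩
      have e : recv c w (Fin.cons o s : Fin (T + 1) → Option (ι × Bool)) = stp c w o + recv c w s := by
        simp [recv, Fin.sum_univ_succ]
      rw [e, ← sub_sub]
      exact hs j

end Pool.Agent.H84_null
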