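import Pool.Agent.H84_null.Coding

set_option autoImplicit false
open scoped BigOperators RealInnerProductSpace
open Filter Topology

namespace Pool.Agent.H84_null

/-- the periods -/
def pp (l : ℕ) : ℕ := 2 ^ (4 ^ l)

theorem pp_pos (l : ℕ) : 0 < pp l := by unfold pp; positivity

theorem pp_succ (l : ℕ) : pp (l + 1) = pp l ^ 4 := by
  unfold pp; rw [pow_succ, pow_mul]

theorem pp_ge (l : ℕ) : 2 ^ (l + 1) ≤ pp l := by
  unfold pp
  apply Nat.pow_le_pow_right (by norm_num)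
  induction l with
  | zero => norm_num
  | succ l ih => rw [pow_succ]; omega

theorem pp_two_le (l : ℕ) : 2 ≤ pp l := by
  refine le_trans ?_ (pp_ge l)
  calc 2 = 2 ^ 1 := by norm_num
    _ ≤ 2 ^ (l + 1) := Nat.pow_le_pow_right (by norm_num) (by omega)

theorem pp_dvd {l m : ℕ} (h : l ≤ m) : pp l ∣ pp m := by
  unfold pp
  exact pow_dvd_pow 2 (Nat.pow_le_pow_right (by norm_num) h)

theorem pp_mono {l m : ℕ} (h : l ≤ m) : pp l ≤ pp m := Nat.le_of_dvd (pp_pos m) (pp_dvd h)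

theorem pp_big {m l : ℕ} (h : m < l) : pp m ^ 3 * 2 ^ l ≤ pp l := by
  induction l, h using Nat.le_induction with
  | base =>
    rw [pp_succ, show pp m ^ 4 = pp m ^ 3 * pp m by ring]
    exact Nat.mul_le_mul_left _ (pp_ge m)
  | succ l hl ih =>
    rw [pp_succ]
    have h2 := pp_two_le l
    calc pp m ^ 3 * 2 ^ (l + 1) = pp m ^ 3 * 2 ^ l * 2 := by ring
      _ ≤ pp l * 2 := Nat.mul_le_mul_right _ ih
      _ ≤ pp l * pp l ^ 3 := by
          apply Nat.mul_le_mul_left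
          calc 2 ≤ pp l := h2
            _ = pp l ^ 1 := by ring
            _ ≤ pp l ^ 3 := Nat.pow_le_pow_right (by omega) (by norm_num)
      _ = pp l ^ 4 := by ring

/-- the coordinates -/
noncomputable def cf (l : ℕ) (n : ℤ) : ℂ :=
  ((√((pp l : ℝ) / 2) : ℝ) : ℂ) * (Complex.exp (Complex.I * ((2 * Real.pi * n / pp l : ℝ) : ℂ)) - 1)

theorem cf_norm_sq (l : ℕ) (n : ℤ) : ‖cf l n‖ ^ 2
    = (pp l : ℝ) / 2 * ‖Complex.exp (Complex.I * ((2 * Real.pi * n / pp l : ℝ) : ℂ)) - 1‖ ^ 2 := by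
  unfold cf
  rw [norm_mul, mul_pow, Complex.norm_real, Real.norm_eq_abs, sq_abs, Real.sq_sqrt (by positivity)]

theorem cf_le (l : ℕ) (n : ℤ) : ‖cf l n‖ ^ 2 ≤ 20 * (n : ℝ) ^ 2 / pp l := by
  have hp : (0 : ℝ) < pp l := by exact_mod_cast pp_pos l
  rw [cf_norm_sq]
  have h1 := Real.norm_exp_I_mul_ofReal_sub_one_le (x := 2 * Real.pi * n / pp l)
  have h2 : ‖Complex.exp (Complex.I * ((2 * Real.pi * n / pp l : ℝ) : ℂ)) - 1‖ ^ 2
      ≤ (2 * Real.pi * n / pp l) ^ 2 := by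
    rw [← sq_abs (2 * Real.pi * n / pp l)]
    exact pow_le_pow_left₀ (norm_nonneg _) h1 2
  have hpi : Real.pi ^ 2 ≤ 10 := by
    have := Real.pi_lt_d2
    have := Real.pi_pos
    nlinarith
  calc (pp l : ℝ) / 2 * ‖Complex.exp (Complex.I * ((2 * Real.pi * n / pp l : ℝ) : ℂ)) - 1‖ ^ 2
      ≤ (pp l : ℝ) / 2 * (2 * Real.pi * n / pp l) ^ 2 := mul_le_mul_of_nonneg_left h2 (by positivity)
    _ = 2 * Real.pi ^ 2 * (n : ℝ) ^ 2 / pp l := by field_simp
    _ ≤ 20 * (n : ℝ) ^ 2 / pp l := by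
        apply div_le_div_of_nonneg_right _ hp.le
        apply mul_le_mul_of_nonneg_right _ (by positivity)
        linarith

theorem cf_le' (l : ℕ) (n : ℤ) : ‖cf l n‖ ^ 2 ≤ 2 * pp l := by
  have hp : (0 : ℝ) < pp l := by exact_mod_cast pp_pos l
  rw [cf_norm_sq]
  have h1 : ‖Complex.exp (Complex.I * ((2 * Real.pi * n / pp l : ℝ) : ℂ)) - 1‖ ≤ 2 := by
    refine (norm_sub_le _ _).trans ?_
    rw [mul_comm, Complex.norm_exp_ofReal_mul_I]
    norm_num
  have h2 : ‖Complex.exp (Complex.I * ((2 * Real.pi * n / pp l : ℝ) : ℂ)) - 1‖ ^ 2 ≤ 2 ^ 2 :=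
    pow_le_pow_left₀ (norm_nonneg _) h1 2
  calc (pp l : ℝ) / 2 * ‖Complex.exp (Complex.I * ((2 * Real.pi * n / pp l : ℝ) : ℂ)) - 1‖ ^ 2
      ≤ (pp l : ℝ) / 2 * 2 ^ 2 := mul_le_mul_of_nonneg_left h2 (by positivity)
    _ = 2 * pp l := by ring

theorem cf_ge (l : ℕ) (n : ℤ) (h1 : (pp l : ℤ) ≤ 4 * n) (h2 : 4 * n ≤ 3 * (pp l : ℤ)) :
    (pp l : ℝ) ≤ ‖cf l n‖ ^ 2 := by
  have hp : (0 : ℝ) < pp l := by exact_mod_cast pp_pos l
  have h1' : (pp l : ℝ) ≤ 4 * n := by exact_mod_cast h1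
  have h2' : 4 * (n : ℝ) ≤ 3 * pp l := by exact_mod_cast h2
  rw [cf_norm_sq]
  set θ : ℝ := 2 * Real.pi * n / pp l with hθ
  have hcos : Real.cos θ ≤ 0 := by
    apply Real.cos_nonpos_of_pi_div_two_le_of_le
    · rw [hθ, le_div_iff₀ hp]
      nlinarith [Real.pi_pos]
    · rw [hθ, div_le_iff₀ hp]
      nlinarith [Real.pi_pos]
  have hn : ‖Complex.exp (Complex.I * (θ : ℂ)) - 1‖ ^ 2 = 2 - 2 * Real.cos θ := by
    rw [← Complex.normSq_eq_norm_sq, Complex.normSq_apply]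
    have e1 : (Complex.exp (Complex.I * (θ : ℂ)) - 1).re = Real.cos θ - 1 := by
      rw [mul_comm, Complex.sub_re, Complex.exp_ofReal_mul_I_re]; simp
    have e2 : (Complex.exp (Complex.I * (θ : ℂ)) - 1).im = Real.sin θ := by
      rw [mul_comm, Complex.sub_im, Complex.exp_ofReal_mul_I_im]; simp
    rw [e1, e2]
    nlinarith [Real.sin_sq_add_cos_sq θ]
  rw [hn]
  nlinarith

theorem cf_sub (l : ℕ) (n m : ℤ) : ‖cf l n - cf l m‖ = ‖cf l (n - m)‖ := by
  have hp : (pp l : ℂ) ≠ 0 := by exact_mod_cast (pp_pos l).ne'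
  have e : cf l n - cf l m
      = Complex.exp (((2 * Real.pi * m / pp l : ℝ) : ℂ) * Complex.I) * cf l (n - m) := by
    unfold cf
    have : Complex.exp (Complex.I * ((2 * Real.pi * n / pp l : ℝ) : ℂ))
        = Complex.exp (((2 * Real.pi * m / pp l : ℝ) : ℂ) * Complex.I) *
          Complex.exp (Complex.I * ((2 * Real.pi * ((n - m : ℤ) : ℝ) / pp l : ℝ) : ℂ)) := by
      rw [← Complex.exp_add]
      congr 1
      push_cast
      field_simp
      ring
    rw [this, mul_comm Complex.I ((2 * Real.pi * (m : ℝ) / pp l : ℝ) : ℂ)]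
    ring
  rw [e, norm_mul, Complex.norm_exp_ofReal_mul_I, one_mul]

theorem cf_dvd (l : ℕ) (n : ℤ) (h : (pp l : ℤ) ∣ n) : cf l n = 0 := by
  obtain ⟨k, rfl⟩ := h
  have hp : (pp l : ℝ) ≠ 0 := by exact_mod_cast (pp_pos l).ne'
  unfold cf
  have : Complex.I * ((2 * Real.pi * ((pp l * k : ℤ) : ℝ) / pp l : ℝ) : ℂ) = k * (2 * Real.pi * Complex.I) := by
    have e : (2 * Real.pi * ((pp l * k : ℤ) : ℝ) / pp l : ℝ) = 2 * Real.pi * k := by
      push_cast
      field_simp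
    rw [e]
    push_cast
    ring
  rw [this, Complex.exp_int_mul_two_pi_mul_I]
  simp

theorem cf_tail (l m : ℕ) (hlm : m < l) (n : ℤ) (hn : |n| ≤ pp m) :
    ‖cf l n‖ ^ 2 ≤ 20 / (pp m : ℝ) * (1 / 2) ^ l := by
  refine (cf_le l n).trans ?_
  have hpm : (0 : ℝ) < pp m := by exact_mod_cast pp_pos m
  have hpl : (0 : ℝ) < pp l := by exact_mod_cast pp_pos l
  have h1 : ((pp m : ℝ)) ^ 3 * 2 ^ l ≤ pp l := by exact_mod_cast pp_big hlm
  have h2 : (n : ℝ) ^ 2 ≤ (pp m : ℝ) ^ 2 := by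
    rw [← sq_abs (n : ℝ)]
    apply pow_le_pow_left₀ (abs_nonneg _)
    exact_mod_cast hn
  rw [div_mul_eq_mul_div, div_le_div_iff₀ hpl hpm, one_div, inv_pow]
  have h2l : (0 : ℝ) < 2 ^ l := by positivity
  calc 20 * (n : ℝ) ^ 2 * pp m ≤ 20 * (pp m : ℝ) ^ 2 * pp m := by gcongr
    _ = 20 * (2 ^ l)⁻¹ * ((pp m : ℝ) ^ 3 * 2 ^ l) := by field_simp
    _ ≤ 20 * (2 ^ l)⁻¹ * pp l := by gcongr

theorem summable_cf (n : ℤ) : Summable fun l => ‖cf l n‖ ^ 2 := by
  have hg : Summable fun l : ℕ => 20 * (n : ℝ) ^ 2 * (1 / 2 : ℝ) ^ l :=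
    (summable_geometric_of_lt_one (by norm_num) (by norm_num)).mul_left _
  refine Summable.of_nonneg_of_le (fun l => by positivity) (fun l => ?_) hg
  refine (cf_le l n).trans ?_
  have hpl : (0 : ℝ) < pp l := by exact_mod_cast pp_pos l
  rw [div_eq_mul_inv, one_div, inv_pow]
  apply mul_le_mul_of_nonneg_left _ (by positivity)
  apply inv_anti₀ (by positivity)
  have : 2 ^ l ≤ pp l := le_trans (Nat.pow_le_pow_right (by norm_num) (by omega)) (pp_ge l)
  exact_mod_cast this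

/-- the Hilbert space -/
abbrev HH : Type := lp (fun _ : ℕ => ℂ) 2

theorem HH_norm_sq (f : HH) : ‖f‖ ^ 2 = ∑' l, ‖f l‖ ^ 2 := by
  have h := lp.norm_rpow_eq_tsum (p := 2) (by norm_num) f
  simpa using h

theorem HH_summable (f : HH) : Summable fun l => ‖f l‖ ^ 2 := by
  have h := (lp.memℓp f).summable (by norm_num)
  simpa using h

theorem memℓp_two {f : ℕ → ℂ} (h : Summable fun l => ‖f l‖ ^ 2) : Memℓp f 2 := by
  apply memℓp_gen
  simpa using h

/-- the points -/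
noncomputable def zz (n : ℤ) : HH := ⟨fun l => cf l n, memℓp_two (summable_cf n)⟩

theorem zz_apply (n : ℤ) (l : ℕ) : (zz n) l = cf l n := rfl

theorem even_memℓp (f : HH) : Memℓp (fun l => if Even l then f l else 0) 2 := by
  apply memℓp_two
  refine Summable.of_nonneg_of_le (fun l => by positivity) (fun l => ?_) (HH_summable f)
  split_ifs
  · exact le_rfl
  · simp

/-- the even part -/
noncomputable def PE : HH →ₗ[ℝ] HH where
  toFun f := ⟨fun l => if Even l then f l else 0, even_memℓp f⟩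
  map_add' f g := by
    ext l
    simp only [lp.coeFn_add, Pi.add_apply]
    split_ifs <;> simp
  map_smul' c f := by
    ext l
    simp only [lp.coeFn_smul, Pi.smul_apply, RingHom.id_apply]
    split_ifs <;> simp

theorem PE_apply (f : HH) (l : ℕ) : (PE f) l = if Even l then f l else 0 := rfl

theorem PE_norm_sq (f : HH) : ‖PE f‖ ^ 2 = ∑' l, if Even l then ‖f l‖ ^ 2 else 0 := by
  rw [HH_norm_sq]
  apply tsum_congr
  intro l
  rw [PE_apply]
  split_ifs <;> simp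

theorem PE_le (f : HH) : ‖PE f‖ ≤ ‖f‖ := by
  have h : ‖PE f‖ ^ 2 ≤ ‖f‖ ^ 2 := by
    rw [HH_norm_sq, HH_norm_sq]
    apply (HH_summable (PE f)).tsum_le_tsum _ (HH_summable f)
    intro l
    rw [PE_apply]
    split_ifs
    · exact le_rfl
    · simp
  exact le_of_sq_le_sq h (norm_nonneg _)

theorem zz_sub_norm (n m : ℤ) : ‖zz n - zz m‖ = ‖zz (n - m)‖ := by
  have h : ‖zz n - zz m‖ ^ 2 = ‖zz (n - m)‖ ^ 2 := by
    rw [HH_norm_sq, HH_norm_sq]
    apply tsum_congr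
    intro l
    rw [lp.coeFn_sub, Pi.sub_apply, zz_apply, zz_apply, zz_apply, cf_sub]
  exact (sq_eq_sq₀ (norm_nonneg _) (norm_nonneg _)).mp h

theorem PE_zz_sub_norm (n m : ℤ) : ‖PE (zz n - zz m)‖ ^ 2 = ‖PE (zz (n - m))‖ ^ 2 := by
  rw [PE_norm_sq, PE_norm_sq]
  apply tsum_congr
  intro l
  rw [lp.coeFn_sub, Pi.sub_apply, zz_apply, zz_apply, zz_apply, cf_sub]

/-- the sequence -/
noncomputable def xs (n : ℤ) : ℝ := FF PE (zz n)

theorem xs_sub (n m : ℤ) : FF PE (zz n - zz m) = xs (n - m) := by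
  unfold xs FF
  rw [zz_sub_norm, PE_zz_sub_norm]

theorem xs_nonneg (n : ℤ) : 0 ≤ xs n := FF_nonneg _ _

theorem xs_le_one (n : ℤ) : xs n ≤ 1 := FF_le_one _ PE_le _

theorem tsum_geo : ∑' l : ℕ, (1 / 2 : ℝ) ^ l = 2 := tsum_geometric_two

theorem zz_pp_norm_sq (m : ℕ) : ‖zz (pp m)‖ ^ 2 ≤ 40 / (pp m : ℝ) := by
  rw [HH_norm_sq]
  have hpm : (0 : ℝ) < pp m := by exact_mod_cast pp_pos m
  have hg : Summable fun l : ℕ => 20 / (pp m : ℝ) * (1 / 2 : ℝ) ^ l :=
    (summable_geometric_of_lt_one (by norm_num) (by norm_num)).mul_left _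
  have h : ∑' l, ‖(zz (pp m)) l‖ ^ 2 ≤ ∑' l : ℕ, 20 / (pp m : ℝ) * (1 / 2 : ℝ) ^ l := by
    apply (HH_summable _).tsum_le_tsum _ hg
    intro l
    rw [zz_apply]
    rcases le_or_gt l m with hl | hl
    · rw [cf_dvd l _ (by exact_mod_cast pp_dvd hl), norm_zero, zero_pow two_ne_zero]
      positivity
    · exact cf_tail l m hl _ (by simp)
  refine h.trans ?_
  rw [tsum_mul_left, tsum_geo]
  apply le_of_eq
  ring

theorem pp_tendsto : Tendsto pp atTop atTop := by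
  apply tendsto_atTop_mono (f := fun l => l) _ tendsto_id
  intro l
  have h1 := pp_ge l
  have h2 : l < 2 ^ l := Nat.lt_two_pow_self
  have h3 : 2 ^ (l + 1) = 2 * 2 ^ l := by ring
  omega

theorem xs_rec (n : ℤ) : Tendsto (fun m => xs (n + pp m)) atTop (𝓝 (xs n)) := by
  rw [tendsto_iff_dist_tendsto_zero]
  set b := zz n with hb
  have hbound : ∀ m, dist (xs (n + pp m)) (xs n) ≤ 2 * ‖zz (pp m)‖ * (2 * ‖b‖ + ‖zz (pp m)‖) := by
    intro m
    have h := FF_diff PE PE_le b (zz (n + pp m) - zz n)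
    have e : b + (zz (n + pp m) - zz n) = zz (n + pp m) := by rw [hb]; abel
    rw [e, zz_sub_norm] at h
    have e2 : n + (pp m : ℤ) - n = pp m := by ring
    rw [e2] at h
    rw [Real.dist_eq]
    refine h.trans ?_
    apply div_le_self (by positivity)
    have := sq_nonneg ‖b‖
    linarith
  have hz : Tendsto (fun m => ‖zz (pp m)‖) atTop (𝓝 0) := by
    have h1 : Tendsto (fun m => ‖zz (pp m)‖ ^ 2) atTop (𝓝 0) := by
      have h2 : Tendsto (fun m => 40 / (pp m : ℝ)) atTop (𝓝 0) :=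
        Tendsto.const_div_atTop (tendsto_natCast_atTop_atTop.comp pp_tendsto) 40
      exact squeeze_zero (fun m => by positivity) zz_pp_norm_sq h2
    have h3 := (Real.continuous_sqrt.tendsto 0).comp h1
    simp only [Real.sqrt_zero] at h3
    refine h3.congr (fun m => ?_)
    simp
  have hlim : Tendsto (fun m => 2 * ‖zz (pp m)‖ * (2 * ‖b‖ + ‖zz (pp m)‖)) atTop (𝓝 0) := by
    have := (hz.const_mul 2).mul (hz.const_add (2 * ‖b‖))
    simpa using this
  exact squeeze_zero (fun m => dist_nonneg) hbound hlim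

/-- the other scales are small on the stretch of scale `l` -/
theorem others_le (l : ℕ) (n : ℤ) (hn : |n| ≤ pp (l + 1)) (j : ℕ) (hj : j ≠ l + 1) :
    ‖cf j n‖ ^ 2 ≤ (2 * (pp l : ℝ) ^ 2 + 20) * (1 / 2) ^ j := by
  have hpl : (1 : ℝ) ≤ pp l := by exact_mod_cast pp_pos l
  rcases lt_or_gt_of_ne hj with h | h
  · have h1 := cf_le' j n
    have h2 : pp j ≤ pp l := pp_mono (by omega)
    have h3 : 2 ^ j ≤ pp j := le_trans (Nat.pow_le_pow_right (by norm_num) (by omega)) (pp_ge j)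
    have h4 : pp j * 2 ^ j ≤ pp l ^ 2 := by
      calc pp j * 2 ^ j ≤ pp j * pp j := Nat.mul_le_mul_left _ h3
        _ ≤ pp l * pp l := Nat.mul_le_mul h2 h2
        _ = pp l ^ 2 := by ring
    have h5 : (pp j : ℝ) * 2 ^ j ≤ (pp l : ℝ) ^ 2 := by exact_mod_cast h4
    have h6 : (0 : ℝ) < 2 ^ j := by positivity
    refine h1.trans ?_
    rw [one_div, inv_pow, ← div_eq_mul_inv, le_div_iff₀ h6]
    linarith
  · have h1 := cf_tail j (l + 1) h n hn
    refine h1.trans ?_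
    apply mul_le_mul_of_nonneg_right _ (by positivity)
    have hp1 : (1 : ℝ) ≤ pp (l + 1) := by exact_mod_cast pp_pos (l + 1)
    have : 20 / (pp (l + 1) : ℝ) ≤ 20 := div_le_self (by norm_num) hp1
    have h7 : 0 ≤ (pp l : ℝ) ^ 2 := by positivity
    linarith

theorem tsum_others_le (l : ℕ) (n : ℤ) (hn : |n| ≤ pp (l + 1)) :
    ∑' j, (if j = l + 1 then 0 else ‖cf j n‖ ^ 2) ≤ 2 * (2 * (pp l : ℝ) ^ 2 + 20) := by
  have hg : Summable fun j : ℕ => (2 * (pp l : ℝ) ^ 2 + 20) * (1 / 2 : ℝ) ^ j :=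
    (summable_geometric_of_lt_one (by norm_num) (by norm_num)).mul_left _
  have h1 : ∀ j, (if j = l + 1 then 0 else ‖cf j n‖ ^ 2) ≤ (2 * (pp l : ℝ) ^ 2 + 20) * (1 / 2 : ℝ) ^ j := by
    intro j
    split_ifs with h
    · positivity
    · exact others_le l n hn j h
  have hs : Summable fun j => (if j = l + 1 then 0 else ‖cf j n‖ ^ 2) :=
    Summable.of_nonneg_of_le (fun j => by split_ifs <;> positivity) h1 hg
  refine (hs.tsum_le_tsum h1 hg).trans ?_
  rw [tsum_mul_left, tsum_geo]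
  linarith

theorem norm_sq_split (l : ℕ) (n : ℤ) :
    ‖zz n‖ ^ 2 = ‖cf l n‖ ^ 2 + ∑' j, (if j = l then 0 else ‖cf j n‖ ^ 2) := by
  rw [HH_norm_sq]
  simp only [zz_apply]
  rw [(summable_cf n).tsum_eq_add_tsum_ite l]

theorem abs_le_of_zone (l : ℕ) (n : ℤ) (h1 : (pp l : ℤ) ≤ 4 * n) (h2 : 4 * n ≤ 3 * (pp l : ℤ)) :
    |n| ≤ pp l := by
  have : (0 : ℤ) < pp l := by exact_mod_cast pp_pos l
  rw [abs_le]
  constructor <;> linarith

theorem xs_high (l : ℕ) (hl : 1 ≤ l) (hev : Even (l + 1)) (n : ℤ) (h1 : (pp (l + 1) : ℤ) ≤ 4 * n)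
    (h2 : 4 * n ≤ 3 * (pp (l + 1) : ℤ)) : 1 / 2 ≤ xs n := by
  have ha := abs_le_of_zone _ n h1 h2
  have ht := cf_ge (l + 1) n h1 h2
  have hE := tsum_others_le l n ha
  have hsplit := norm_sq_split (l + 1) n
  set E := ∑' j, (if j = l + 1 then 0 else ‖cf j n‖ ^ 2) with hEdef
  have hP : ‖cf (l + 1) n‖ ^ 2 ≤ ‖PE (zz n)‖ ^ 2 := by
    rw [PE_norm_sq]
    have hs : Summable fun j => if Even j then ‖(zz n) j‖ ^ 2 else 0 := by
      refine Summable.of_nonneg_of_le (fun j => by split_ifs <;> positivity) (fun j => ?_)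
        (summable_cf n)
      split_ifs
      · exact le_rfl
      · positivity
    have := hs.le_tsum (l + 1) (fun j _ => by split_ifs <;> positivity)
    simpa [hev, zz_apply] using this
  have hq : (16 : ℝ) ≤ pp l := by
    have : pp 1 ≤ pp l := pp_mono hl
    have h16 : pp 1 = 16 := by unfold pp; norm_num
    rw [h16] at this
    exact_mod_cast this
  have hp : (pp (l + 1) : ℝ) = (pp l : ℝ) ^ 4 := by exact_mod_cast pp_succ l
  have hkey : 1 + E ≤ ‖cf (l + 1) n‖ ^ 2 := by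
    have h3 : (pp l : ℝ) ^ 2 * 256 ≤ (pp l : ℝ) ^ 4 := by
      have : (256 : ℝ) ≤ (pp l : ℝ) ^ 2 := by nlinarith
      calc (pp l : ℝ) ^ 2 * 256 ≤ (pp l : ℝ) ^ 2 * (pp l : ℝ) ^ 2 :=
            mul_le_mul_of_nonneg_left this (by positivity)
        _ = _ := by ring
    have h4 : (256 : ℝ) ≤ (pp l : ℝ) ^ 2 := by nlinarith
    linarith
  unfold xs FF
  rw [div_le_div_iff₀ (by norm_num) (by positivity), hsplit]
  linarith

theorem xs_low (l : ℕ) (hod : ¬ Even (l + 1)) (n : ℤ) (h1 : (pp (l + 1) : ℤ) ≤ 4 * n)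
    (h2 : 4 * n ≤ 3 * (pp (l + 1) : ℤ)) : xs n ≤ 44 / (pp l : ℝ) ^ 2 := by
  have ha := abs_le_of_zone _ n h1 h2
  have ht := cf_ge (l + 1) n h1 h2
  have hE := tsum_others_le l n ha
  have hsplit := norm_sq_split (l + 1) n
  have hEnn : 0 ≤ ∑' j, (if j = l + 1 then 0 else ‖cf j n‖ ^ 2) :=
    tsum_nonneg (fun j => by split_ifs <;> positivity)
  have hP : ‖PE (zz n)‖ ^ 2 ≤ ∑' j, (if j = l + 1 then 0 else ‖cf j n‖ ^ 2) := by
    rw [PE_norm_sq]
    have hs : Summable fun j => if Even j then ‖(zz n) j‖ ^ 2 else 0 := by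
      refine Summable.of_nonneg_of_le (fun j => by split_ifs <;> positivity) (fun j => ?_)
        (summable_cf n)
      split_ifs
      · exact le_rfl
      · positivity
    have hs2 : Summable fun j => (if j = l + 1 then 0 else ‖cf j n‖ ^ 2) := by
      refine Summable.of_nonneg_of_le (fun j => by split_ifs <;> positivity) (fun j => ?_)
        (summable_cf n)
      split_ifs
      · positivity
      · exact le_rfl
    apply hs.tsum_le_tsum _ hs2
    intro j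
    rw [zz_apply]
    by_cases hj : j = l + 1
    · rw [if_pos hj, hj, if_neg hod]
    · rw [if_neg hj]
      split_ifs
      · exact le_rfl
      · positivity
  set E := ∑' j, (if j = l + 1 then 0 else ‖cf j n‖ ^ 2) with hEdef
  have hq : (2 : ℝ) ≤ pp l := by exact_mod_cast pp_two_le l
  have hq0 : (0 : ℝ) < pp l := by linarith
  have hp : (pp (l + 1) : ℝ) = (pp l : ℝ) ^ 4 := by exact_mod_cast pp_succ l
  have hE44 : E ≤ 44 * (pp l : ℝ) ^ 2 := by nlinarith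
  unfold xs FF
  rw [div_le_div_iff₀ (by positivity) (by positivity), hsplit]
  have h5 : (pp l : ℝ) ^ 4 ≤ 1 + (‖cf (l + 1) n‖ ^ 2 + E) := by linarith
  calc ‖PE (zz n)‖ ^ 2 * (pp l : ℝ) ^ 2 ≤ (44 * (pp l : ℝ) ^ 2) * (pp l : ℝ) ^ 2 := by
        apply mul_le_mul_of_nonneg_right (hP.trans hE44) (by positivity)
    _ = 44 * (pp l : ℝ) ^ 4 := by ring
    _ ≤ _ := by
        apply mul_le_mul_of_nonneg_left h5 (by norm_num)

/-- the coding property of the sequence -/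
theorem xs_coding (ε : ℝ) (hε : 0 < ε) :
    ∃ C M : ℕ, ∀ (ι : Type) [Fintype ι] [Nonempty ι] (b : ι → ℕ),
      ∃ (β : Type) (_ : Fintype β) (code : ℕ → β),
        Fintype.card β ≤ C * (Fintype.card ι + 1) ^ M ∧
        ∀ m m' : ℕ, code m = code m' → ∀ i, |xs (m + b i) - xs (m' + b i)| ≤ ε := by
  obtain ⟨C, M, h⟩ := coding PE PE_le ε hε
  refine ⟨C, M, ?_⟩
  intro ι _ _ b
  obtain ⟨β, hβ, code, hcard, hcode⟩ := h ι (fun i => zz (-(b i : ℤ)))
  refine ⟨β, hβ, fun m => code (zz m), hcard, ?_⟩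
  intro m m' hmm i
  have := hcode _ _ hmm i
  simpa only [xs_sub, sub_neg_eq_add] using this

end Pool.Agent.H84_null
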