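import Pool.Agent.H84_null.Seq

set_option autoImplicit false
open scoped BigOperators
open Filter Topology

namespace Pool.Agent.H84_null

/-- the ambient space -/
def YY : Type := ℕ → Set.Icc (0 : ℝ) 1

noncomputable instance : MetricSpace YY :=
  PiCountable.metricSpace (F := fun _ : ℕ => Set.Icc (0 : ℝ) 1)

instance : CompactSpace YY := inferInstanceAs (CompactSpace (ℕ → Set.Icc (0 : ℝ) 1))

theorem YY_dist (y y' : YY) :
    dist y y' = ∑' i : ℕ, min ((2 : ℝ)⁻¹ ^ i) (dist (y i) (y' i)) := rfl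

theorem YY_summable (y y' : YY) :
    Summable fun i : ℕ => min ((2 : ℝ)⁻¹ ^ i) (dist (y i) (y' i)) :=
  PiCountable.dist_summable (F := fun _ : ℕ => Set.Icc (0 : ℝ) 1) y y'

theorem YY_dist_zero (y y' : YY) : |(y 0 : ℝ) - y' 0| ≤ dist y y' := by
  have h := PiCountable.min_dist_le_dist_pi (F := fun _ : ℕ => Set.Icc (0 : ℝ) 1) y y' 0
  have h2 : min ((2 : ℝ)⁻¹ ^ Encodable.encode (0 : ℕ)) (dist (y 0) (y' 0)) = |(y 0 : ℝ) - y' 0| := by
    rw [Subtype.dist_eq, Real.dist_eq]
    apply min_eq_right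
    have h1 := (y 0).2
    have h2 := (y' 0).2
    simp only [Set.mem_Icc] at h1 h2
    simp only [Encodable.encode_nat, pow_zero]
    rw [abs_le]
    constructor <;> linarith [h1.1, h1.2, h2.1, h2.2]
  rw [← h2]
  exact h

theorem YY_close (ε : ℝ) (hε : 0 < ε) : ∃ (J : ℕ) (η : ℝ), 0 < η ∧
    ∀ y y' : YY, (∀ j < J, |(y j : ℝ) - y' j| ≤ η) → dist y y' < ε := by
  obtain ⟨J, hJ⟩ := exists_pow_lt_of_lt_one (show 0 < ε / 4 by positivity)
    (show (2 : ℝ)⁻¹ < 1 by norm_num)
  refine ⟨J, ε / (4 * (J + 1)), by positivity, ?_⟩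
  intro y y' h
  rw [YY_dist, ← (YY_summable y y').sum_add_tsum_nat_add J]
  have h1 : ∑ i ∈ Finset.range J, min ((2 : ℝ)⁻¹ ^ i) (dist (y i) (y' i)) ≤ ε / 4 := by
    calc ∑ i ∈ Finset.range J, min ((2 : ℝ)⁻¹ ^ i) (dist (y i) (y' i))
        ≤ ∑ i ∈ Finset.range J, ε / (4 * (J + 1)) := by
          apply Finset.sum_le_sum
          intro i hi
          refine (min_le_right _ _).trans ?_
          rw [Subtype.dist_eq, Real.dist_eq]
          exact h i (Finset.mem_range.mp hi)
      _ = J * (ε / (4 * (J + 1))) := by simp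
      _ ≤ ε / 4 := by
          rw [mul_div_assoc', div_le_div_iff₀ (by positivity) (by norm_num)]
          nlinarith
  have h2 : ∑' i : ℕ, min ((2 : ℝ)⁻¹ ^ (i + J)) (dist (y (i + J)) (y' (i + J)))
      ≤ ∑' i : ℕ, (2 : ℝ)⁻¹ ^ J * (2 : ℝ)⁻¹ ^ i := by
    have hg : Summable fun i : ℕ => (2 : ℝ)⁻¹ ^ J * (2 : ℝ)⁻¹ ^ i :=
      (summable_geometric_of_lt_one (by norm_num) (by norm_num)).mul_left _
    apply ((summable_nat_add_iff J).mpr (YY_summable y y')).tsum_le_tsum _ hg
    intro i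
    refine (min_le_left _ _).trans ?_
    rw [pow_add, mul_comm]
  rw [tsum_mul_left, tsum_geometric_inv_two] at h2
  linarith

theorem continuous_coord (k : ℕ) : Continuous (fun y : YY => (y k : ℝ)) :=
  continuous_subtype_val.comp (continuous_apply k)

/-- the shift -/
def sh (y : YY) : YY := fun k => y (k + 1)

theorem continuous_sh : Continuous sh := continuous_pi fun k => continuous_apply (k + 1)

theorem sh_iterate (n : ℕ) (y : YY) (k : ℕ) : (sh^[n] y) k = y (k + n) := by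
  induction n generalizing k with
  | zero => rfl
  | succ n ih =>
    rw [Function.iterate_succ_apply']
    show (sh^[n] y) (k + 1) = _
    rw [ih]
    congr 1
    ring

/-- the base point -/
noncomputable def x0 : YY := fun k => ⟨xs k, xs_nonneg _, xs_le_one _⟩

theorem x0_apply (k : ℕ) : (x0 k : ℝ) = xs k := rfl

/-- the orbit closure -/
def XX : Set YY := closure (Set.range fun n : ℕ => sh^[n] x0)

instance : CompactSpace XX := isCompact_iff_compactSpace.mp isClosed_closure.isCompact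

theorem sh_maps : Set.MapsTo sh XX XX := by
  apply Set.MapsTo.closure _ continuous_sh
  rintro _ ⟨n, rfl⟩
  exact ⟨n + 1, by simp only [Function.iterate_succ_apply']⟩

/-- the transformation -/
def TT : XX → XX := sh_maps.restrict sh XX XX

theorem continuous_TT : Continuous TT := by
  apply Continuous.subtype_mk
  exact continuous_sh.comp continuous_subtype_val

theorem TT_iterate (n : ℕ) (y : XX) : ((TT^[n] y : XX) : YY) = sh^[n] y.1 := by
  induction n with
  | zero => rfl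
  | succ n ih =>
    rw [Function.iterate_succ_apply', Function.iterate_succ_apply', ← ih]
    rfl

theorem TT_coord (n : ℕ) (y : XX) (k : ℕ) : ((TT^[n] y : XX) : YY) k = y.1 (k + n) := by
  rw [TT_iterate, sh_iterate]

/-- the orbit -/
noncomputable def oo (n : ℕ) : XX := ⟨sh^[n] x0, subset_closure ⟨n, rfl⟩⟩

theorem oo_coord (n k : ℕ) : ((oo n).1 k : ℝ) = xs (k + n) := by
  show ((sh^[n] x0) k : ℝ) = _
  rw [sh_iterate, x0_apply]
  push_cast
  rfl

theorem TT_oo (n j : ℕ) : TT^[n] (oo j) = oo (j + n) := by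
  apply Subtype.ext
  rw [TT_iterate]
  show sh^[n] (sh^[j] x0) = sh^[j + n] x0
  rw [← Function.iterate_add_apply, add_comm]

theorem tendsto_YY {u : ℕ → YY} {y : YY} (h : ∀ k, Tendsto (fun m => (u m k : ℝ)) atTop (𝓝 (y k : ℝ))) :
    Tendsto u atTop (𝓝 y) := by
  exact tendsto_pi_nhds.mpr (fun k => tendsto_subtype_rng.mpr (h k))

theorem oo_rec (n : ℕ) : Tendsto (fun m => oo (n + pp m)) atTop (𝓝 (oo n)) := by
  rw [tendsto_subtype_rng]
  apply tendsto_YY
  intro k
  have h := xs_rec ((k : ℤ) + n)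
  rw [show (((oo n : XX) : YY) k : ℝ) = xs ((k : ℤ) + n) from oo_coord n k]
  refine h.congr (fun m => ?_)
  rw [oo_coord]
  push_cast
  congr 1
  ring

theorem oo_dense (U : Set XX) (hU : IsOpen U) (hne : U.Nonempty) : ∃ n, oo n ∈ U := by
  obtain ⟨U', hU', rfl⟩ := isOpen_induced_iff.mp hU
  obtain ⟨y, hy⟩ := hne
  obtain ⟨z, hz1, n, rfl⟩ := mem_closure_iff.mp y.2 U' hU' hy
  exact ⟨n, hz1⟩

theorem TT_transitive (U V : Set XX) (hU : IsOpen U) (hV : IsOpen V) (hUn : U.Nonempty)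
    (hVn : V.Nonempty) : ∃ n : ℕ, 1 ≤ n ∧ (V ∩ TT^[n] ⁻¹' U).Nonempty := by
  obtain ⟨i, hi⟩ := oo_dense U hU hUn
  obtain ⟨j, hj⟩ := oo_dense V hV hVn
  have h1 := (oo_rec i).eventually (hU.mem_nhds hi)
  have h2 := pp_tendsto.eventually (eventually_ge_atTop (j + 1))
  obtain ⟨m, hm1, hm2⟩ := (h1.and h2).exists
  refine ⟨i + pp m - j, by omega, oo j, hj, ?_⟩
  show TT^[i + pp m - j] (oo j) ∈ U
  rw [TT_oo, show j + (i + pp m - j) = i + pp m by omega]
  exact hm1

theorem growth (C M J : ℕ) (δ : ℝ) (hδ : 0 < δ) :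
    ∀ᶠ n : ℕ in atTop, (C : ℝ) * ((n * (J + 1) : ℕ) + 1 : ℝ) ^ M ≤ Real.exp (δ * n) := by
  have h := (isLittleO_pow_exp_pos_mul_atTop M hδ).bound
    (show (0 : ℝ) < 1 / (C * (J + 2 : ℝ) ^ M + 1) by positivity)
  have h' := tendsto_natCast_atTop_atTop.eventually h
  filter_upwards [h', eventually_ge_atTop 1] with n hn hn1
  have hn1' : (1 : ℝ) ≤ n := by exact_mod_cast hn1
  rw [Real.norm_of_nonneg (by positivity), Real.norm_of_nonneg (Real.exp_pos _).le] at hn
  have e1 : ((n * (J + 1) : ℕ) : ℝ) + 1 ≤ (J + 2) * n := by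
    push_cast
    nlinarith
  have e2 : (C : ℝ) * ((n * (J + 1) : ℕ) + 1 : ℝ) ^ M ≤ C * ((J + 2) * n : ℝ) ^ M := by
    apply mul_le_mul_of_nonneg_left _ (by positivity)
    apply pow_le_pow_left₀ (by positivity) e1
  refine e2.trans ?_
  set D : ℝ := C * (J + 2 : ℝ) ^ M with hD
  have hD0 : 0 ≤ D := by positivity
  have e3 : (C : ℝ) * ((J + 2) * n : ℝ) ^ M = D * (n : ℝ) ^ M := by rw [mul_pow, hD]; ring
  rw [e3]
  calc D * (n : ℝ) ^ M ≤ D * (1 / (D + 1) * Real.exp (δ * n)) := mul_le_mul_of_nonneg_left hn hD0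
    _ = D / (D + 1) * Real.exp (δ * n) := by ring
    _ ≤ 1 * Real.exp (δ * n) := by
        apply mul_le_mul_of_nonneg_right _ (Real.exp_pos _).le
        rw [div_le_one (by positivity)]
        linarith
    _ = _ := one_mul _

theorem TT_null (a : ℕ → ℕ) (ε : ℝ) (hε : 0 < ε) (δ : ℝ) (hδ : 0 < δ) :
    ∀ᶠ n in atTop, ∀ F : Finset XX,
      (∀ x ∈ F, ∀ y ∈ F, x ≠ y → ∃ i < n, ε ≤ dist (TT^[a i] x) (TT^[a i] y)) →
        (F.card : ℝ) ≤ Real.exp (δ * n) := by
  classical
  obtain ⟨J, η, hη, hJ⟩ := YY_close ε hε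
  obtain ⟨C, M, hcode⟩ := xs_coding (η / 3) (by positivity)
  filter_upwards [growth C M J δ hδ, eventually_ge_atTop 1] with n hg hn F hF
  have : Nonempty (Fin n) := ⟨⟨0, by omega⟩⟩
  obtain ⟨β, _, code, hcard, hc⟩ := hcode (Fin n × Fin (J + 1)) (fun p => a p.1 + p.2)
  have approx : ∀ y : XX, ∃ m : ℕ, ∀ p : Fin n × Fin (J + 1),
      |(y.1 (a p.1 + p.2) : ℝ) - xs (m + ((a p.1 + p.2 : ℕ) : ℤ))| ≤ η / 3 := by
    intro y
    have hopen : IsOpen {y' : YY | ∀ p : Fin n × Fin (J + 1),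
        |(y.1 (a p.1 + p.2) : ℝ) - y' (a p.1 + p.2)| < η / 3} := by
      rw [Set.ofPred_forall]
      apply isOpen_iInter_of_finite
      intro p
      exact isOpen_lt ((continuous_const.sub (continuous_coord _)).abs) continuous_const
    obtain ⟨z, hz1, m, rfl⟩ := mem_closure_iff.mp y.2 _ hopen
      (fun p => by simp only [sub_self, abs_zero]; positivity)
    refine ⟨m, fun p => ?_⟩
    have h1 : |(y.1 (a p.1 + p.2) : ℝ) - (sh^[m] x0) (a p.1 + p.2)| < η / 3 := hz1 p
    rw [sh_iterate, x0_apply] at h1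
    push_cast at h1 ⊢
    rw [add_comm (m : ℤ)]
    exact h1.le
  choose m hm using approx
  have hinj : F.card ≤ Fintype.card β := by
    rw [← Finset.card_univ]
    apply Finset.card_le_card_of_injOn (fun y => code (m y)) (fun y _ => Finset.mem_coe.mpr (Finset.mem_univ _))
    intro y hy y' hy' hyy
    by_contra hne
    obtain ⟨i, hi, hd⟩ := hF y hy y' hy' hne
    have hlt : dist (TT^[a i] y) (TT^[a i] y') < ε := by
      rw [Subtype.dist_eq]
      apply hJ
      intro j hj
      rw [TT_coord, TT_coord, add_comm j]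
      have h1 := hm y (⟨i, hi⟩, ⟨j, by omega⟩)
      have h2 := hm y' (⟨i, hi⟩, ⟨j, by omega⟩)
      have h3 := hc _ _ hyy (⟨i, hi⟩, ⟨j, by omega⟩)
      simp only at h1 h2 h3
      rw [abs_le] at h1 h2 h3 ⊢
      constructor <;> linarith [h1.1, h1.2, h2.1, h2.2, h3.1, h3.2]
    linarith
  have hcard' : (F.card : ℝ) ≤ (C : ℝ) * ((n * (J + 1) : ℕ) + 1 : ℝ) ^ M := by
    have h1 : F.card ≤ C * (n * (J + 1) + 1) ^ M := by
      refine hinj.trans (hcard.trans ?_)
      simp [Fintype.card_prod]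
    exact_mod_cast h1
  exact hcard'.trans hg

/-- the fixed point -/
def y00 : YY := fun _ => ⟨0, by simp⟩

theorem four_dvd_pp (l : ℕ) (hl : 1 ≤ l) : 4 ∣ pp l := by
  have h : pp 1 ∣ pp l := pp_dvd hl
  refine dvd_trans ?_ h
  unfold pp
  norm_num

theorem oo_low : Tendsto (fun k => ((oo (pp (2 * k + 1) / 2) : XX) : YY)) atTop (𝓝 y00) := by
  apply tendsto_YY
  intro i
  have h0 : ((y00 i : Set.Icc (0 : ℝ) 1) : ℝ) = 0 := rfl
  rw [h0]
  have hlim : Tendsto (fun k : ℕ => 44 / (pp (2 * k) : ℝ) ^ 2) atTop (𝓝 0) := by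
    have h1 : Tendsto (fun k : ℕ => (pp (2 * k) : ℝ)) atTop atTop := by
      apply tendsto_natCast_atTop_atTop.comp
      apply pp_tendsto.comp
      exact tendsto_atTop_mono (fun k => by simp only [id]; omega) tendsto_id
    have h2 : Tendsto (fun k : ℕ => (pp (2 * k) : ℝ) ^ 2) atTop atTop :=
      (tendsto_pow_atTop two_ne_zero).comp h1
    exact Tendsto.const_div_atTop h2 44
  refine squeeze_zero' (Eventually.of_forall fun k => ?_) ?_ hlim
  · rw [oo_coord]; exact xs_nonneg _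
  · have h1 : Tendsto (fun k : ℕ => pp (2 * k + 1)) atTop atTop := by
      apply pp_tendsto.comp
      exact tendsto_atTop_mono (fun k => by simp only [id]; omega) tendsto_id
    filter_upwards [h1.eventually (eventually_ge_atTop (4 * i))] with k hk
    rw [oo_coord]
    obtain ⟨q, hq⟩ := four_dvd_pp (2 * k + 1) (by omega)
    have hhalf : pp (2 * k + 1) / 2 = 2 * q := by omega
    have hiq : i ≤ q := by omega
    apply xs_low (2 * k) (by rw [Nat.not_even_iff_odd]; exact ⟨k, rfl⟩)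
    · rw [hhalf, hq]; push_cast; have : (0 : ℤ) ≤ i := by positivity
      linarith
    · rw [hhalf, hq]; push_cast; have : (i : ℤ) ≤ q := by exact_mod_cast hiq
      linarith

theorem y00_mem : y00 ∈ XX :=
  isClosed_closure.mem_of_tendsto oo_low (Eventually.of_forall fun k => (oo _).2)

theorem TT_y00 (n k : ℕ) : (((TT^[n] ⟨y00, y00_mem⟩ : XX) : YY) k : ℝ) = 0 := by
  rw [TT_coord]; rfl

theorem not_mean_eq : ¬ (∀ ε : ℝ, 0 < ε → ∃ δ : ℝ, 0 < δ ∧ ∀ x y : XX, dist x y < δ →
        ∀ᶠ n in atTop,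
          (∑ i ∈ Finset.range n, dist (TT^[i] x) (TT^[i] y)) / (n : ℝ) < ε) := by
  intro H
  obtain ⟨δ, hδ, h⟩ := H (1 / 8) (by norm_num)
  have hclose : ∀ᶠ k in atTop, dist (oo (pp (2 * k + 1) / 2)) (⟨y00, y00_mem⟩ : XX) < δ := by
    have := (Metric.tendsto_nhds.mp oo_low) δ hδ
    exact this
  obtain ⟨k, hk⟩ := hclose.exists
  set s := pp (2 * k + 1) / 2 with hs
  have hev := h _ _ hk
  have htop : Tendsto (fun j : ℕ => pp (2 * j + 2)) atTop atTop := by
    apply pp_tendsto.comp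
    exact tendsto_atTop_mono (fun k => by simp only [id]; omega) tendsto_id
  obtain ⟨j, hj1, hj2, hj3⟩ := ((htop.eventually hev).and
    ((htop.eventually (eventually_ge_atTop (4 * s))).and (eventually_ge_atTop 1))).exists
  obtain ⟨q, hq⟩ := four_dvd_pp (2 * j + 2) (by omega)
  have hq0 : 0 < q := by
    have := pp_pos (2 * j + 2)
    omega
  have hsq : s ≤ q := by omega
  rw [hq] at hj1
  have hsum : (q : ℝ) * (1 / 2) ≤ ∑ i ∈ Finset.range (4 * q),
      dist (TT^[i] (oo s)) (TT^[i] (⟨y00, y00_mem⟩ : XX)) := by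
    calc (q : ℝ) * (1 / 2) = ∑ i ∈ Finset.Ico q (2 * q), (1 / 2 : ℝ) := by
          rw [Finset.sum_const, Nat.card_Ico, nsmul_eq_mul]
          congr 2
          omega
      _ ≤ ∑ i ∈ Finset.Ico q (2 * q), dist (TT^[i] (oo s)) (TT^[i] (⟨y00, y00_mem⟩ : XX)) := by
          apply Finset.sum_le_sum
          intro i hi
          rw [Finset.mem_Ico] at hi
          rw [Subtype.dist_eq]
          refine le_trans ?_ (YY_dist_zero _ _)
          rw [TT_y00, TT_oo, oo_coord, sub_zero]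
          refine le_trans ?_ (le_abs_self _)
          apply xs_high (2 * j + 1) (by omega) ⟨j + 1, by ring⟩
          · rw [hq]; push_cast
            have : (q : ℤ) ≤ i := by exact_mod_cast hi.1
            have : (0 : ℤ) ≤ s := by positivity
            linarith
          · rw [hq]; push_cast
            have : (i : ℤ) ≤ 2 * q := by exact_mod_cast hi.2.le
            have : (s : ℤ) ≤ q := by exact_mod_cast hsq
            linarith
      _ ≤ _ := by
          apply Finset.sum_le_sum_of_subset_of_nonneg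
          · intro i hi
            rw [Finset.mem_Ico] at hi
            rw [Finset.mem_range]
            omega
          · intro i _ _
            exact dist_nonneg
  rw [div_lt_iff₀ (by positivity)] at hj1
  push_cast at hj1
  linarith

end Pool.Agent.H84_null
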